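import Mathlib
import Pool.Agent.H130R8.SS3

set_option autoImplicit false

namespace Pool.Agent.Results.MP_a7d15e_an.BidualFailsSSD2P

open Pool.Agent.H130R8 Filter Topology

universe u

section Defs

variable (X : Type u) [NormedAddCommGroup X] [NormedSpace ℝ X]

/-- The normed dual space of a real normed space `X` (bounded linear functionals with the
operator norm). -/
def DualSpace : Type u := StrongDual ℝ X

noncomputable instance : NormedAddCommGroup (DualSpace X) :=
  (inferInstance : NormedAddCommGroup (StrongDual ℝ X))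

noncomputable instance : NormedSpace ℝ (DualSpace X) :=
  (inferInstance : NormedSpace ℝ (StrongDual ℝ X))

variable {X}

/-- The value `f x` of a functional. -/
def DualSpace.eval (f : DualSpace X) (x : X) : ℝ := (show StrongDual ℝ X from f) x

/-- The slice `{x in the closed unit ball : f x > 1 - α}`. -/
def Slice (f : DualSpace X) (α : ℝ) : Set X := {x : X | ‖x‖ ≤ 1 ∧ 1 - α < f.eval x}

variable (X)

/-- The symmetric strong diameter two property. -/
def SSD2P : Prop :=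
  ∀ (n : ℕ) (f : Fin n → DualSpace X) (α : Fin n → ℝ),
    (∀ i, ‖f i‖ = 1) → (∀ i, 0 < α i) → ∀ ε : ℝ, 0 < ε →
      ∃ (x : Fin n → X) (y : X), ‖y‖ ≤ 1 ∧ 1 - ε < ‖y‖ ∧
        ∀ i, x i ∈ Slice (f i) (α i) ∧ x i + y ∈ Slice (f i) (α i) ∧
          x i - y ∈ Slice (f i) (α i)

end Defs

/-- The point `u` of the closed unit ball of `X` is strongly exposed by the norm-one
functional `f`. -/
def StronglyExposedBy (X : Type u) [NormedAddCommGroup X] [NormedSpace ℝ X] (u : X)
    (f : DualSpace X) : Prop :=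
  ‖u‖ = 1 ∧ ‖f‖ = 1 ∧ f.eval u = 1 ∧
    ∀ η : ℝ, 0 < η → ∃ α : ℝ, 0 < α ∧ ∀ x ∈ Slice f α, ‖x - u‖ ≤ η

/-- There is a real Banach space `X` with the symmetric strong diameter two property whose bidual
fails the symmetric strong diameter two property; in fact the closed unit ball of the bidual has a
strongly exposed point. -/
theorem result :
    ∃ (X : Type) (_ : NormedAddCommGroup X) (_ : NormedSpace ℝ X) (_ : CompleteSpace X),
      SSD2P X ∧ ¬ SSD2P (DualSpace (DualSpace X)) ∧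
      ∃ (u : DualSpace (DualSpace X)) (Φ : DualSpace (DualSpace (DualSpace X))),
        StronglyExposedBy (DualSpace (DualSpace X)) u Φ := by
  obtain ⟨X, i1, i2, i3, hS, u, a, hu, ha, hua, hψ⟩ := main_space
  -- the functional on the bidual
  obtain ⟨q, hq1, hq2⟩ := exists_limit (E := DualSpace X) (fun n => (a n : DualSpace X)) ha
  let Φ : DualSpace (DualSpace (DualSpace X)) := q
  have hΦlim : ∀ ψ : DualSpace (DualSpace X),
      Tendsto (fun n => ψ.eval (a n : DualSpace X)) (hyperfilter ℕ : Filter ℕ) (𝓝 (Φ.eval ψ)) :=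
    fun ψ => hq2 ψ
  let u' : DualSpace (DualSpace X) := u
  have hu' : ‖u'‖ ≤ 1 := hu
  have hΦu : Φ.eval u' = 1 := by
    refine tendsto_nhds_unique (hΦlim u') ?_
    have : (fun n => u'.eval (a n : DualSpace X)) = fun _ => (1 : ℝ) := funext hua
    rw [this]; exact tendsto_const_nhds
  have hΦ1 : ‖Φ‖ = 1 := by
    apply le_antisymm hq1
    have h1 : ‖Φ.eval u'‖ ≤ ‖Φ‖ * ‖u'‖ :=
      (show StrongDual ℝ (DualSpace (DualSpace X)) from Φ).le_opNorm u'
    rw [hΦu, norm_one] at h1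
    calc (1 : ℝ) ≤ ‖Φ‖ * ‖u'‖ := h1
      _ ≤ ‖Φ‖ * 1 := mul_le_mul_of_nonneg_left hu' (norm_nonneg _)
      _ = ‖Φ‖ := mul_one _
  have hu1 : ‖u'‖ = 1 := by
    apply le_antisymm hu'
    have h1 : ‖Φ.eval u'‖ ≤ ‖Φ‖ * ‖u'‖ :=
      (show StrongDual ℝ (DualSpace (DualSpace X)) from Φ).le_opNorm u'
    rwa [hΦu, norm_one, hΦ1, one_mul] at h1
  have key : ∀ α : ℝ, 0 < α → ∀ ψ ∈ Slice Φ α, ‖ψ - u'‖ ≤ 8 * α := by
    rintro α hα ψ ⟨h1, h2⟩
    exact hψ α ψ hα h1 ((hΦlim ψ).eventually (lt_mem_nhds h2))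
  refine ⟨X, i1, i2, i3, ?_, ?_, u', Φ, hu1, hΦ1, hΦu, fun η hη => ⟨η / 8, by positivity, fun ψ hs => by
    have := key (η / 8) (by positivity) ψ hs
    linarith⟩⟩
  · intro n f α hf hα ε hε
    obtain ⟨x, y, hy, h⟩ := hS n f α hf hα
    exact ⟨x, y, hy.le, by rw [hy]; linarith, fun i => h i⟩
  · intro hss
    obtain ⟨x, y, hy1, hy2, h⟩ := hss 1 (fun _ => Φ) (fun _ => 1 / 64) (fun _ => hΦ1)
      (fun _ => by norm_num) (1 / 2) (by norm_num)
    obtain ⟨-, h1, h2⟩ := h 0
    have h3 := key _ (by norm_num) _ h1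
    have h4 := key _ (by norm_num) _ h2
    have h5 : (2 : ℝ) • y = (x 0 + y - u') - (x 0 - y - u') := by
      rw [two_smul]; abel
    have h6 : ‖(2 : ℝ) • y‖ ≤ 1 / 4 := by
      rw [h5]
      calc _ ≤ ‖x 0 + y - u'‖ + ‖x 0 - y - u'‖ := norm_sub_le _ _
        _ ≤ 1 / 4 := by linarith
    rw [norm_smul, Real.norm_of_nonneg (by norm_num)] at h6
    linarith

end Pool.Agent.Results.MP_a7d15e_an.BidualFailsSSD2P
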